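import Pool.Agent.W574.MO.Cone

set_option autoImplicit false

/-! # The motivic monodromy conjecture for ideals generated by forms in three variables

Let `I = (f_j)`, where the `f_j` are forms of the same degree `d` in `x₀, x₁, x₂`. The local
motivic zeta function of `I` at the origin is computed from the ideal sheaf which `I` defines on
the projective plane, by blowing up points; see `ConeMot`, `ProjMot` (in
`Pool.Agent.W574.MO.FormDefs`), `PlaneMot` and `MotLocal` (in `Pool.Agent.W574.MO.Defs`).

The proof:

* `functionalEq_deh`: a functional equation of an ideal generated by forms of the same degree gives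
  one of the dehomogenized ideal, with the same `b`;
* `local_mainM`: if `b(s₀) ≠ 0`, then the contribution of a point of the plane lies in the ring of
  the series whose denominators do not vanish at `s₀`;
* `descent`: over the unique factorization domain `ℤ[L, L⁻¹]`, all denominators which do not
  belong to roots of `b` can be removed at the same time; every contribution of a point comes from
  this ring;
* `generic_root`: `b(-3/d) = 0` if three of the forms are algebraically independent. -/

namespace Pool.Agent.Results.MP_4e5fcd_ag.ConeIdeals

open MvPolynomial Pool.Agent.W574.MO Pool.Agent.W574.SM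

/-- Let `f_j` be forms of the same degree `d > 0` in three variables, let `b` be a polynomial which
satisfies a Bernstein-Sato functional equation of `f_1, ..., f_r` (in particular the
Bernstein-Sato polynomial `b_I` of the ideal `I = (f_j)`), and let `Z ∈ M⟦T⟧` be the local motivic
zeta function of `I` at the origin. Then `Z` lies in the ring `M[T][(1 - L⁻ⁿ Tᵃ)⁻¹]`, where the
pairs `a, n ≥ 1` are such that `-n/a` is a root of `b` or, only in the case where the Jacobian
determinants of all triples of the `f_j` vanish, `-n/a = -3/d`; see `ConePair`. -/
theorem result {M : Type} [CommRing M] (L : Mˣ) {ι : Type} [Fintype ι]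
    (f : ι → MvPolynomial (Fin 3) ℂ) (d : ℕ) (hd : 0 < d) (hf : ∀ j, (f j).IsHomogeneous d)
    (b : Polynomial ℂ) (hb : IsFunctionalEq f b) (Z : PowerSeries M) (hZ : ConeMot L f d Z) :
    Z ∈ DenRing L (ConePair f d b) := by
  classical
  exact cone_mot L f d hd hf b hb Z hZ

end Pool.Agent.Results.MP_4e5fcd_ag.ConeIdeals
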