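import Pool.Agent.W423.NI.Final

/-!
# The motivic monodromy conjecture at the origin for nondegenerate ideals

Let `I = (f_1, ..., f_r)`, `f_i = ∑_{π j = i} c_j x ^ (m_j)`, be an ideal of `ℂ[x_1, ..., x_n]` with
generators which are nondegenerate with respect to their Newton polytopes (a Zariski open condition
on the coefficients of given polytopes; nothing else is assumed on the coefficients, on the number of
variables, or on the singularities of the scheme `V(I)`; the intersection of the `f_i = 0` need not
be complete at the origin).

If no facet of the Newton polyhedron of `∑ y_i f_i` is of type `B1` (for example if the `f_i` have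
the same exponents and no exponent is equal to `1`) then the local motivic zeta function of `I` at
the origin lies in the ring generated by `T` and finitely many `1 / (1 - 𝕃 ^ a T ^ b)` with
`a < 0 < b` such that `a / b` is an integer or the local Bernstein-Sato polynomial of the ideal
`I` at the origin (Budur, Mustata and Saito) has a root in `a / b + ℤ`; then `exp (2 π i a / b)` is
an eigenvalue of Verdier's monodromy at points over points near the origin.

Method. The jets are counted directly, with the nondegeneracy of all the subfamilies of the `f_i`; a
stratum on which one of the initial forms is a monomial does not contribute, so the facets of the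
Newton polyhedron of `∑ y_i f_i` which are pyramids with a vertex `y_i x ^ m` do not occur. The
Bernstein-Sato polynomial of `I` gives a functional equation of the nondegenerate polynomial
`∑ y_i f_i`, which is extended to a family over `ℂ⟦τ⟧` with very general coefficients by
Kouchnirenko's theorem.
-/

set_option autoImplicit false

namespace Pool.Agent.Results.MP_4e5fcd_ag.NondegenerateIdeals

open MvPolynomial Pool.Agent.W428.MOT Pool.Agent.W749.JI Pool.Agent.W423.NI

/-- **The motivic monodromy conjecture at the origin (Bernstein-Sato form modulo integers) for the
ideals `(f_1, ..., f_r)`, `f_i = ∑_{π j = i} c_j x ^ (m_j)`, which are nondegenerate with respect to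
the Newton polytopes of the `f_i`.**

`NondegI π m c` says that for every linear form `w` on `ℝ ^ n` and every nonempty set `Q` of indices
the parts of the `f_i`, `i ∈ Q`, on which `w` is minimal have no common zero in `(ℂ \ 0) ^ n` at
which their differentials are linearly dependent. The `c j` may be zero, so that the `m_j` may
include all the lattice points of the polytopes.

`NoB1I π m` says that for every ray `a ∈ ℕ ^ (n + r)` of the normal fan of the Newton polyhedron of
the vectors `cay π m j = (m_j, e_{π j})` with `N_a > 0` and such that every `f_i` with
`a_{n + i} ≠ 0` has at least two monomials on the face of `a`, either `N_a` divides `|a|` or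
`|a| / N_a - |a'| / N_{a'}` is an integer for some `a'` with `N_{a'} > 0` whose face contains a
simplex which is not of type `B1` (`NonB (cay π m) True a'`). `SameExp π m` says that all the `f_i`
have the same exponents.

`IsLocalBIdeal f b` says that `b(s_1 + ⋯ + s_r) ∏ f_i ^ s_i` satisfies a functional equation of
Budur, Mustata and Saito with differential operators with formal power series coefficients; the
local Bernstein-Sato polynomial `b_{I,0}` is one of these polynomials `b`. `zetaI` is
`𝕃 ^ (-n) ∑_{N ≥ 1} [𝒳_N] 𝕃 ^ (-n N) T ^ N` with `𝒳_N` the `N`-jets with origin `0` on which `I` has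
order `N`. -/
theorem result {n k r : ℕ} (π : Fin k → Fin r) (m : Fin k → Fin n → ℕ) (c : Fin k → ℂ)
    (hr : 0 < r) (hπ : Function.Surjective π) (hinj : ∀ j j', π j = π j' → m j = m j' → j = j')
    (hnd : NondegI π m c) (hB : NoB1I π m ∨ (SameExp π m ∧ ∀ j v, m j v ≠ 1)) :
    ∃ S : Finset (ℤ × ℤ),
      (∀ p ∈ S, p.1 < 0 ∧ 0 < p.2 ∧ (p.2 ∣ p.1 ∨ ∀ b : Polynomial ℂ,
        IsLocalBIdeal (fun i => ∑ j ∈ Finset.univ.filter (fun j => π j = i),
          C (c j) * ∏ v, X v ^ m j v) b → ∃ i : ℤ, b.eval ((p.1 : ℂ) / p.2 - i) = 0)) ∧
      zetaI (fun i => ∑ j ∈ Finset.univ.filter (fun j => π j = i),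
          C (c j) * ∏ v, X v ^ m j v) ∈ ratRing ℂ S :=
  final π m c hr hπ hinj hnd hB

end Pool.Agent.Results.MP_4e5fcd_ag.NondegenerateIdeals
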