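import Pool.Agent.W749.JI.Final

/-!
# The motivic monodromy conjecture at the origin for sparse ideals

Let `I = (f_1, ..., f_r)`, `r ≥ 1`, `f_i = ∑_{π j = i} c_j x ^ (m_j) ≠ 0` with `c_j ≠ 0`, such that
the vectors `(m_j, e_{π j})` are linearly independent over `ℚ`, no exponent is equal to `1` and no
monomial is constant. The local motivic zeta function of `I` at the origin,
`𝕃 ^ (-n) ∑_{N ≥ 1} [𝒳_N] (𝕃 ^ (-n) T) ^ N` with `𝒳_N` the `N`-jets with origin `0` on which `I`
has order `N`, lies in the ring generated by `T` and finitely many `1 / (1 - 𝕃 ^ a T ^ b)` with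
`a < 0 < b` and `a / b` a root of the local Bernstein-Sato polynomial of the ideal `I` at the
origin (Budur, Mustata and Saito).
-/

set_option autoImplicit false

namespace Pool.Agent.Results.MP_4e5fcd_ag.SparseIdealsLocal

open MvPolynomial Pool.Agent.W428.MOT Pool.Agent.W749.JI

/-- **The motivic monodromy conjecture at the origin (Bernstein-Sato form) for the ideals
`(f_1, ..., f_r)`, `f_i = ∑_{π j = i} c_j x ^ (m_j)`, with linearly independent vectors
`(m_j, e_{π j})` and without exponents `1`.**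

`IsLocalBIdeal f b` says that `b(s_1 + ⋯ + s_r) ∏ f_i ^ s_i` satisfies a functional equation of
Budur, Mustata and Saito with differential operators with formal power series coefficients; the
local Bernstein-Sato polynomial `b_{I,0}` is one of these polynomials `b`. -/
theorem result {n k r : ℕ} (π : Fin k → Fin r) (m : Fin k → Fin n → ℕ) (c : Fin k → ℂ)
    (hr : 0 < r) (hπ : Function.Surjective π)
    (hm : ∀ γ : Fin k → ℚ, (∀ i, ∑ j, (if π j = i then γ j else 0) = 0) →
      (∀ v, ∑ j, γ j * m j v = 0) → ∀ j, γ j = 0)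
    (hc : ∀ j, c j ≠ 0) (h1 : ∀ j v, m j v ≠ 1) (h0 : ∀ j, ∃ v, m j v ≠ 0) :
    ∃ S : Finset (ℤ × ℤ),
      (∀ p ∈ S, p.1 < 0 ∧ 0 < p.2 ∧ ∀ b : Polynomial ℂ,
        IsLocalBIdeal (fun i => ∑ j ∈ Finset.univ.filter (fun j => π j = i),
          C (c j) * ∏ v, X v ^ m j v) b → b.eval ((p.1 : ℂ) / p.2) = 0) ∧
      zetaI (fun i => ∑ j ∈ Finset.univ.filter (fun j => π j = i),
          C (c j) * ∏ v, X v ^ m j v) ∈ ratRing ℂ S :=
  sFINI π m c hr hπ hm hc h1 h0

end Pool.Agent.Results.MP_4e5fcd_ag.SparseIdealsLocal
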